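import Pool.Agent.H.MP_08c4cb_co.A

namespace Pool.Agent.Results.MP_08c4cb_co.Linear

open Real Filter

/-- sizes of 1-separated finite subsets of the unit cube -/
def sizes (n : ℕ) : Set ℕ :=
  {N | ∃ S : Finset (EuclideanSpace ℝ (Fin n)), S.card = N ∧ (∀ x ∈ S, ∀ j, 0 ≤ x j ∧ x j ≤ 1) ∧
    ∀ x ∈ S, ∀ y ∈ S, x ≠ y → 1 ≤ dist x y}

/-- the largest such size -/
noncomputable def f (n : ℕ) : ℕ := sSup (sizes n)

open Pool.Agent.H.MP_08c4cb_co in
theorem result :
    (∀ n, 1 ≤ n → IsGreatest (sizes n) (f n)) ∧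
    ∀ ε : ℝ, 0 < ε → ∀ᶠ n : ℕ in atTop,
      -(Real.log (2 * π * Real.exp 1) / 2 + ε) * n ≤ Real.log (f n) - n * Real.log n / 2 ∧
      Real.log (f n) - n * Real.log n / 2 ≤ -(Real.log (π * Real.exp 1) / 2 - ε) * n := by
  have hG : ∀ n, 1 ≤ n → IsGreatest (sizes n) (f n) := by
    intro n hn
    have hb : BddAbove (sizes n) := by
      refine ⟨⌈(1 / (1 - 2 * (1 / 2 : ℝ) ^ 2)) * ((3 / 1) ^ 1 * (1 + 3 * 1) ^ n) / V n (1 / 2)⌉₊, ?_⟩
      rintro N ⟨S, rfl, h1, h2⟩
      have := upper hn S ⟨h1, h2⟩ (r := 1 / 2) (η := 1) (by norm_num) (by norm_num) one_pos le_rfl 1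
        (by norm_num)
      rw [← le_div_iff₀ (V_pos n (by norm_num))] at this
      exact_mod_cast this.trans (Nat.le_ceil _)
    unfold f
    exact ⟨Nat.sSup_mem ⟨0, ∅, by simp⟩ hb, fun N hN => le_csSup hb hN⟩
  refine ⟨hG, fun ε hε => ?_⟩
  set η : ℝ := min 1 (ε / 8) with hη
  have hη0 : 0 < η := lt_min one_pos (by positivity)
  have hη1 : η ≤ 1 := min_le_left _ _
  have hη2 : η ≤ ε / 8 := min_le_right _ _
  set r : ℝ := √(1 / (2 * (1 + η))) with hr
  have hr0 : 0 < r := Real.sqrt_pos.2 (by positivity)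
  have hr2 : 2 * r ^ 2 < 1 := by
    rw [hr, Real.sq_sqrt (by positivity), ← mul_div_assoc, div_lt_one (by positivity)]
    linarith
  have hlr : Real.log r = -(Real.log 2 + Real.log (1 + η)) / 2 := by
    rw [hr, Real.log_sqrt (by positivity), one_div, Real.log_inv,
      Real.log_mul (by positivity) (by positivity)]
  set k : ℕ := ⌈1 / η ^ 2⌉₊ with hk
  have hk1 : 1 ≤ k * η ^ 2 := by
    have := Nat.le_ceil (1 / η ^ 2)
    rwa [div_le_iff₀ (by positivity)] at this
  filter_upwards [eventually_ge_atTop 2, small 2 ε hε,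
    small (2 + Real.log (1 / (1 - 2 * r ^ 2)) + k * Real.log (3 / η)) (ε / 2) (by positivity)]
    with n hn s1 s2
  have hn' : (2 : ℝ) ≤ n := by exact_mod_cast hn
  obtain ⟨⟨S, hS, h1, h2⟩, hmax⟩ := hG n (by omega)
  have lo := lower (by omega) S ⟨h1, h2⟩ (fun S' hS' => hS ▸ hmax ⟨S', rfl, hS'.1, hS'.2⟩)
  have up := upper (by omega) S ⟨h1, h2⟩ hr0 hr2 hη0 hη1 k hk1
  rw [hS] at lo up
  have hV1 := V_pos n one_pos
  have hVr := V_pos n hr0
  have hf0 : (0 : ℝ) < f n := by
    by_contra h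
    have : (f n : ℝ) = 0 := le_antisymm (not_lt.1 h) (by positivity)
    rw [this] at lo
    norm_num at lo
  have gb := abs_le.1 (gamma_bd n hn)
  have hpi := Real.pi_pos
  have e1 : Real.log (n / 2) = Real.log n - Real.log 2 :=
    Real.log_div (by positivity) (by norm_num)
  have e2 : Real.log (π * Real.exp 1) = Real.log π + 1 := by
    rw [Real.log_mul (by positivity) (by positivity), Real.log_exp]
  have e3 : Real.log (2 * π * Real.exp 1) = Real.log 2 + Real.log π + 1 := by
    rw [Real.log_mul (by positivity) (by positivity), Real.log_exp,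
      Real.log_mul (by positivity) (by positivity)]
  rw [e1] at gb
  constructor
  · have a1 := Real.log_le_log one_pos lo
    rw [Real.log_one, Real.log_mul hf0.ne' hV1.ne', log_V n one_pos, Real.log_one] at a1
    rw [e3]
    nlinarith [gb.1]
  · have hM : 0 < 1 / (1 - 2 * r ^ 2) := one_div_pos.2 (by linarith)
    have a1 := Real.log_le_log (by positivity) up
    rw [Real.log_mul hf0.ne' hVr.ne', log_V n hr0, Real.log_mul hM.ne' (by positivity),
      Real.log_mul (by positivity) (by positivity), Real.log_pow, Real.log_pow, hlr] at a1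
    have a2 := Real.log_le_sub_one_of_pos (show 0 < 1 + η by positivity)
    have a3 := Real.log_le_sub_one_of_pos (show 0 < 1 + 3 * η by positivity)
    have a4 : n * Real.log (1 + η) ≤ n * (ε / 8) := by gcongr; linarith
    have a5 : n * Real.log (1 + 3 * η) ≤ n * (3 * (ε / 8)) := by gcongr; linarith
    rw [e2]
    nlinarith [gb.2]

end Pool.Agent.Results.MP_08c4cb_co.Linear
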